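import Pool.Agent.Q289.PA.Indep

/-!
# The Penney-Ante game: Conway's formula
-/

set_option autoImplicit false

open MeasureTheory ProbabilityTheory Filter Topology

namespace Q289.PA

variable {n : ℕ}

/-- the string as a sequence -/
def str (A : Fin n → Bool) (i : ℕ) : Bool := if h : i < n then A ⟨i, h⟩ else false

theorem str_of_lt (A : Fin n → Bool) {i : ℕ} (h : i < n) : str A i = A ⟨i, h⟩ := by
  unfold str; rw [dif_pos h]

theorem occurs_iff (A : Fin n → Bool) (ω : ℕ → Bool) (m : ℕ) :
    Occurs A ω m ↔ ∀ i, i < n → ω (m + i) = str A i := by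
  constructor
  · intro h i hi
    rw [str_of_lt A hi]
    exact h ⟨i, hi⟩
  · intro h i
    rw [h i.1 i.2, str_of_lt A i.2]

/-- an occurrence ending at time `j` -/
def EndsAt (A : Fin n → Bool) (ω : ℕ → Bool) (j : ℕ) : Prop := ∃ m, m + n = j ∧ Occurs A ω m

theorem endsAt_congr (A : Fin n → Bool) {ω ω' : ℕ → Bool} {j : ℕ}
    (h : ∀ i, i < j → ω i = ω' i) (hA : EndsAt A ω j) : EndsAt A ω' j := by
  obtain ⟨m, hm, ho⟩ := hA
  refine ⟨m, hm, fun i => ?_⟩
  rw [← h (m + i) (by omega)]
  exact ho i

theorem endsAt_unique {A B : Fin n → Bool} {ω : ℕ → Bool} {j : ℕ} (hA : EndsAt A ω j)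
    (hB : EndsAt B ω j) : A = B := by
  obtain ⟨m, hm, h1⟩ := hA
  obtain ⟨m', hm', h2⟩ := hB
  have : m = m' := by omega
  subst this
  funext i
  rw [← h1 i, h2 i]

/-- the first of `A`, `B` to occur is `X`, and its first occurrence ends at time `j` -/
def Win (A B X : Fin n → Bool) (j : ℕ) : Set (ℕ → Bool) :=
  {ω | EndsAt X ω j ∧ ∀ i, i < j → ¬ EndsAt A ω i ∧ ¬ EndsAt B ω i}

/-- no occurrence ends at time `t` or before -/
def None (A B : Fin n → Bool) (t : ℕ) : Set (ℕ → Bool) :=
  {ω | ∀ i, i ≤ t → ¬ EndsAt A ω i ∧ ¬ EndsAt B ω i}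

theorem win_dep (A B X : Fin n → Bool) (j : ℕ) (ω ω' : ℕ → Bool)
    (h : ∀ i, i < j → ω i = ω' i) (hw : ω ∈ Win A B X j) : ω' ∈ Win A B X j := by
  obtain ⟨h1, h2⟩ := hw
  refine ⟨endsAt_congr X h h1, fun i hi => ⟨fun h3 => (h2 i hi).1 ?_, fun h3 => (h2 i hi).2 ?_⟩⟩
  · exact endsAt_congr A (fun l hl => (h l (by omega)).symm) h3
  · exact endsAt_congr B (fun l hl => (h l (by omega)).symm) h3

theorem none_dep (A B : Fin n → Bool) (t : ℕ) (ω ω' : ℕ → Bool)
    (h : ∀ i, i < t → ω i = ω' i) (hw : ω ∈ None A B t) : ω' ∈ None A B t := by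
  refine fun i hi => ⟨fun h3 => (hw i hi).1 ?_, fun h3 => (hw i hi).2 ?_⟩
  · exact endsAt_congr A (fun l hl => (h l (by omega)).symm) h3
  · exact endsAt_congr B (fun l hl => (h l (by omega)).symm) h3

theorem meas_win (A B X : Fin n → Bool) (j : ℕ) : MeasurableSet (Win A B X j) :=
  meas_prefix j _ (win_dep A B X j)

theorem meas_none (A B : Fin n → Bool) (t : ℕ) : MeasurableSet (None A B t) :=
  meas_prefix t _ (none_dep A B t)

theorem win_zero (A B X : Fin n → Bool) {j : ℕ} (h : j < n) : Win A B X j = ∅ := by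
  ext ω
  simp only [Set.mem_empty_iff_false, iff_false]
  rintro ⟨⟨m, hm, _⟩, _⟩
  omega

/-- last `k` letters of `X` are the first `k` letters of `Y` -/
def Corr (k : ℕ) (X Y : Fin n → Bool) : Prop := ∀ i, i < k → str X (n - k + i) = str Y i

open Classical in
/-- the probability of a win of `X` at time `j` -/
noncomputable def w (A B X : Fin n → Bool) (j : ℕ) : ℝ := coin.real (Win A B X j)

theorem w_nonneg (A B X : Fin n → Bool) (j : ℕ) : 0 ≤ w A B X j := measureReal_nonneg

open Classical in
theorem win_inter (A B X Y : Fin n → Bool) (t k : ℕ) (hk : k ≤ n) :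
    coin.real (Win A B X (t + k) ∩ {ω | Occurs Y ω t}) =
      (if Corr k X Y then 1 else 0) * w A B X (t + k) * (1 / 2) ^ (n - k) := by
  by_cases hc : Corr k X Y
  · rw [if_pos hc, one_mul]
    unfold w
    rw [← prefix_indep_many (fun i => str Y (i - t)) (n - k) (t + k) _
      (win_dep A B X (t + k))]
    congr 1
    ext ω
    simp only [Set.mem_inter_iff, Set.mem_ofPred_eq]
    refine and_congr_right fun hw => ?_
    obtain ⟨⟨m, hm, ho⟩, _⟩ := hw
    rw [occurs_iff] at ho ⊢
    constructor
    · intro h i hi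
      have h1 := h (k + i) (by omega)
      have h2 : t + k + i - t = k + i := by omega
      rw [h2, ← h1, add_assoc]
    · intro h i hi
      rcases lt_or_ge i k with hik | hik
      · rw [← hc i hik, ← ho (n - k + i) (by omega)]
        congr 1
        omega
      · have h1 := h (i - k) (by omega)
        have h2 : t + k + (i - k) = t + i := by omega
        have h3 : t + i - t = i := by omega
        rw [h2, h3] at h1
        exact h1
  · rw [if_neg hc]
    have : Win A B X (t + k) ∩ {ω | Occurs Y ω t} = ∅ := by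
      ext ω
      simp only [Set.mem_inter_iff, Set.mem_ofPred_eq, Set.mem_empty_iff_false, iff_false,
        not_and]
      rintro ⟨⟨m, hm, ho⟩, _⟩ hY
      apply hc
      rw [occurs_iff] at ho hY
      intro i hi
      rw [← ho (n - k + i) (by omega), ← hY i (by omega)]
      congr 1
      omega
    rw [this]
    simp

open Classical in
/-- the basic identity -/
theorem basic (A B Y : Fin n → Bool) (hAB : A ≠ B) (hY : Y = A ∨ Y = B) (t : ℕ) :
    coin.real (None A B t) * (1 / 2) ^ n =
      ∑ k ∈ Finset.Icc 1 n, ((if Corr k A Y then 1 else 0) * w A B A (t + k) +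
        (if Corr k B Y then 1 else 0) * w A B B (t + k)) * (1 / 2) ^ (n - k) := by
  have h1 : coin.real (None A B t ∩ {ω | Occurs Y ω t}) =
      coin.real (None A B t) * (1 / 2) ^ n := by
    rw [← prefix_indep_many (fun i => str Y (i - t)) n t _ (none_dep A B t)]
    congr 1
    ext ω
    simp only [Set.mem_inter_iff, Set.mem_ofPred_eq, occurs_iff]
    refine and_congr_right fun _ => forall_congr' fun i => ?_
    have h3 : t + i - t = i := by omega
    rw [h3]
  rw [← h1]
  have h2 : None A B t ∩ {ω | Occurs Y ω t} = ⋃ k ∈ Finset.Icc 1 n,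
      ((Win A B A (t + k) ∩ {ω | Occurs Y ω t}) ∪ (Win A B B (t + k) ∩ {ω | Occurs Y ω t})) := by
    ext ω
    simp only [Set.mem_inter_iff, Set.mem_ofPred_eq, Set.mem_iUnion, Set.mem_union,
      Finset.mem_Icc, exists_prop]
    constructor
    · rintro ⟨h3, h4⟩
      have h5 : ∃ j, EndsAt A ω j ∨ EndsAt B ω j := by
        refine ⟨t + n, ?_⟩
        rcases hY with rfl | rfl
        · exact Or.inl ⟨t, rfl, h4⟩
        · exact Or.inr ⟨t, rfl, h4⟩
      set j := Nat.find h5 with hj
      have hj1 : EndsAt A ω j ∨ EndsAt B ω j := Nat.find_spec h5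
      have hj2 : ∀ i, i < j → ¬ EndsAt A ω i ∧ ¬ EndsAt B ω i := fun i hi =>
        not_or.1 (Nat.find_min h5 hi)
      have hj3 : j ≤ t + n := by
        refine Nat.find_min' h5 ?_
        rcases hY with rfl | rfl
        · exact Or.inl ⟨t, rfl, h4⟩
        · exact Or.inr ⟨t, rfl, h4⟩
      have hj4 : t < j := by
        by_contra hcon
        rcases hj1 with h | h
        · exact (h3 j (not_lt.1 hcon)).1 h
        · exact (h3 j (not_lt.1 hcon)).2 h
      refine ⟨j - t, by omega, ?_⟩
      have hj5 : t + (j - t) = j := by omega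
      rw [hj5]
      rcases hj1 with h | h
      · exact Or.inl ⟨⟨h, hj2⟩, h4⟩
      · exact Or.inr ⟨⟨h, hj2⟩, h4⟩
    · rintro ⟨k, ⟨hk1, hk2⟩, ⟨⟨h3, h4⟩, h5⟩ | ⟨⟨h3, h4⟩, h5⟩⟩
      · exact ⟨fun i hi => h4 i (by omega), h5⟩
      · exact ⟨fun i hi => h4 i (by omega), h5⟩
  have hmO : MeasurableSet {ω : ℕ → Bool | Occurs Y ω t} := by
    refine meas_prefix (t + n) _ fun ω ω' h ho i => ?_
    rw [← h (t + i) (by omega)]
    exact ho i
  rw [h2, measureReal_biUnion_finset]
  · refine Finset.sum_congr rfl fun k hk => ?_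
    have hk' := (Finset.mem_Icc.1 hk)
    rw [measureReal_union _ ((meas_win A B B (t + k)).inter hmO), win_inter A B A Y t k hk'.2,
      win_inter A B B Y t k hk'.2]
    · ring
    · rw [Set.disjoint_left]
      rintro ω ⟨⟨h3, _⟩, _⟩ ⟨⟨h4, _⟩, _⟩
      exact hAB (endsAt_unique h3 h4)
  · intro k _ k' _ hkk'
    have hgen : ∀ X X' : Fin n → Bool, (X = A ∨ X = B) → (X' = A ∨ X' = B) → ∀ ω,
        ω ∈ Win A B X (t + k) → ω ∈ Win A B X' (t + k') → False := by
      rintro X X' hX hX' ω ⟨h3, h4⟩ ⟨h5, h6⟩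
      rcases lt_trichotomy k k' with h | h | h
      · have := h6 (t + k) (by omega)
        rcases hX with rfl | rfl
        · exact this.1 h3
        · exact this.2 h3
      · exact hkk' h
      · have := h4 (t + k') (by omega)
        rcases hX' with rfl | rfl
        · exact this.1 h5
        · exact this.2 h5
    change Disjoint _ _
    rw [Set.disjoint_left]
    rintro ω (⟨h3, _⟩ | ⟨h3, _⟩) (⟨h4, _⟩ | ⟨h4, _⟩)
    · exact hgen A A (Or.inl rfl) (Or.inl rfl) ω h3 h4
    · exact hgen A B (Or.inl rfl) (Or.inr rfl) ω h3 h4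
    · exact hgen B A (Or.inr rfl) (Or.inl rfl) ω h3 h4
    · exact hgen B B (Or.inr rfl) (Or.inr rfl) ω h3 h4
  · intro k _
    exact ((meas_win A B A (t + k)).inter hmO).union ((meas_win A B B (t + k)).inter hmO)

theorem none_add (A B : Fin n → Bool) (hAB : A ≠ B) (t : ℕ) :
    coin.real (None A B t) + ∑ j ∈ Finset.range (t + 1), (w A B A j + w A B B j) = 1 := by
  have key : ∀ (F : Set (ℕ → Bool)) (t : ℕ), F ∩ None A B t = F ∩ None A B t := fun _ _ => rfl
  have hsplit : ∀ j, coin.real {ω | ∀ i, i < j → ¬ EndsAt A ω i ∧ ¬ EndsAt B ω i} =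
      coin.real (None A B j) + (w A B A j + w A B B j) := by
    intro j
    have h1 : {ω | ∀ i, i < j → ¬ EndsAt A ω i ∧ ¬ EndsAt B ω i} =
        None A B j ∪ (Win A B A j ∪ Win A B B j) := by
      ext ω
      simp only [Set.mem_ofPred_eq, Set.mem_union]
      constructor
      · intro h
        by_cases hA : EndsAt A ω j
        · exact Or.inr (Or.inl ⟨hA, h⟩)
        · by_cases hB : EndsAt B ω j
          · exact Or.inr (Or.inr ⟨hB, h⟩)
          · left
            intro i hi
            rcases hi.lt_or_eq with h2 | h2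
            · exact h i h2
            · rw [h2]; exact ⟨hA, hB⟩
      · rintro (h | ⟨_, h⟩ | ⟨_, h⟩)
        · exact fun i hi => h i hi.le
        · exact h
        · exact h
    rw [h1, measureReal_union _ ((meas_win A B A j).union (meas_win A B B j)),
      measureReal_union _ (meas_win A B B j)]
    · rfl
    · rw [Set.disjoint_left]
      rintro ω ⟨h3, _⟩ ⟨h4, _⟩
      exact hAB (endsAt_unique h3 h4)
    · rw [Set.disjoint_left]
      rintro ω h3 (⟨h4, _⟩ | ⟨h4, _⟩)
      · exact (h3 j le_rfl).1 h4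
      · exact (h3 j le_rfl).2 h4
  induction t with
  | zero =>
    have := hsplit 0
    have h0 : {ω : ℕ → Bool | ∀ i, i < 0 → ¬ EndsAt A ω i ∧ ¬ EndsAt B ω i} = Set.univ := by
      ext ω; simp
    rw [h0, probReal_univ] at this
    rw [Finset.sum_range_one]
    exact this.symm
  | succ t ih =>
    rw [Finset.sum_range_succ]
    have h1 := hsplit (t + 1)
    have h2 : {ω | ∀ i, i < t + 1 → ¬ EndsAt A ω i ∧ ¬ EndsAt B ω i} = None A B t := by
      ext ω
      simp only [Set.mem_ofPred_eq, None, Nat.lt_succ_iff]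
    rw [h2] at h1
    linarith

theorem w_summable (A B : Fin n → Bool) (hAB : A ≠ B) :
    Summable (fun j => w A B A j) ∧ Summable (fun j => w A B B j) := by
  have hb : ∀ t, ∑ j ∈ Finset.range t, (w A B A j + w A B B j) ≤ 1 := by
    intro t
    cases t with
    | zero => simp
    | succ t =>
      have h1 := none_add A B hAB t
      have h2 : 0 ≤ coin.real (None A B t) := measureReal_nonneg
      linarith
  have hs : Summable (fun j => w A B A j + w A B B j) :=
    summable_of_sum_range_le (fun j => add_nonneg (w_nonneg _ _ _ _) (w_nonneg _ _ _ _)) hb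
  exact ⟨hs.of_nonneg_of_le (fun j => w_nonneg _ _ _ _)
    (fun j => le_add_of_nonneg_right (w_nonneg _ _ _ _)),
    hs.of_nonneg_of_le (fun j => w_nonneg _ _ _ _)
    (fun j => le_add_of_nonneg_left (w_nonneg _ _ _ _))⟩

theorem tsum_shift (A B X : Fin n → Bool) (hs : Summable (fun j => w A B X j)) {k : ℕ}
    (hk : k ≤ n) : ∑' t, w A B X (t + k) = ∑' j, w A B X j := by
  rw [← hs.sum_add_tsum_nat_add k]
  have : ∑ i ∈ Finset.range k, w A B X i = 0 := by
    refine Finset.sum_eq_zero fun i hi => ?_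
    have := Finset.mem_range.1 hi
    unfold w
    rw [win_zero A B X (by omega)]
    simp
  rw [this, zero_add]

theorem tsum_one (A B : Fin n → Bool) (hAB : A ≠ B) :
    ∑' j, w A B A j + ∑' j, w A B B j = 1 := by
  classical
  obtain ⟨hs1, hs2⟩ := w_summable A B hAB
  have hlim0 : Tendsto (fun t => coin.real (None A B t)) atTop (𝓝 0) := by
    have h1 : Tendsto (fun t => coin.real (None A B t) * (1 / 2 : ℝ) ^ n) atTop (𝓝 0) := by
      simp_rw [basic A B A hAB (Or.inl rfl)]
      have h2 : Tendsto (fun t => ∑ k ∈ Finset.Icc 1 n,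
          (((if Corr k A A then 1 else 0) * w A B A (t + k) +
        (if Corr k B A then 1 else 0) * w A B B (t + k)) * (1 / 2 : ℝ) ^ (n - k))) atTop
          (𝓝 (∑ k ∈ Finset.Icc 1 n, (((if Corr k A A then 1 else 0) * 0 +
        (if Corr k B A then 1 else 0) * 0) * (1 / 2 : ℝ) ^ (n - k)))) := by
        refine tendsto_finsetSum _ fun k _ => ?_
        have h3 : Tendsto (fun t => w A B A (t + k)) atTop (𝓝 0) :=
          hs1.tendsto_atTop_zero.comp (tendsto_add_atTop_nat k)
        have h4 : Tendsto (fun t => w A B B (t + k)) atTop (𝓝 0) :=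
          hs2.tendsto_atTop_zero.comp (tendsto_add_atTop_nat k)
        exact ((h3.const_mul _).add (h4.const_mul _)).mul_const _
      simpa using h2
    have h5 := h1.mul_const ((2 : ℝ) ^ n)
    rw [zero_mul] at h5
    refine h5.congr fun t => ?_
    rw [mul_assoc, ← mul_pow]
    norm_num
  have hlim1 : Tendsto (fun t => coin.real (None A B t) +
      ∑ j ∈ Finset.range (t + 1), (w A B A j + w A B B j)) atTop
      (𝓝 (0 + ∑' j, (w A B A j + w A B B j))) :=
    hlim0.add ((hs1.add hs2).hasSum.tendsto_sum_nat.comp (tendsto_add_atTop_nat 1))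
  have hlim2 := hlim1.congr (fun t => none_add A B hAB t)
  have h := tendsto_nhds_unique hlim2 tendsto_const_nhds
  rw [zero_add, hs1.tsum_add hs2] at h
  exact h

open Classical in
/-- the correlation of two strings -/
noncomputable def cor (X Y : Fin n → Bool) : ℝ :=
  ∑ k ∈ Finset.Icc 1 n, if Corr k X Y then (2 : ℝ) ^ k else 0

theorem conway_eq (A B : Fin n → Bool) (hAB : A ≠ B) :
    (∑' j, w A B A j) * (cor A A - cor A B) = (∑' j, w A B B j) * (cor B B - cor B A) := by
  classical
  obtain ⟨hs1, hs2⟩ := w_summable A B hAB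
  have h1 : ∀ t, ∑ k ∈ Finset.Icc 1 n, (2 : ℝ) ^ k *
      (((if Corr k A A then 1 else 0) - (if Corr k A B then 1 else 0)) * w A B A (t + k) -
       ((if Corr k B B then 1 else 0) - (if Corr k B A then 1 else 0)) * w A B B (t + k)) = 0 := by
    intro t
    have ha := basic A B A hAB (Or.inl rfl) t
    have hb := basic A B B hAB (Or.inr rfl) t
    have h2 := ha.symm.trans hb
    have h3 : ∀ k ∈ Finset.Icc 1 n, (2 : ℝ) ^ k *
      (((if Corr k A A then 1 else 0) - (if Corr k A B then 1 else 0)) * w A B A (t + k) -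
       ((if Corr k B B then 1 else 0) - (if Corr k B A then 1 else 0)) * w A B B (t + k)) =
        2 ^ n * (((if Corr k A A then 1 else 0) * w A B A (t + k) +
        (if Corr k B A then 1 else 0) * w A B B (t + k)) * (1 / 2) ^ (n - k)) -
        2 ^ n * (((if Corr k A B then 1 else 0) * w A B A (t + k) +
        (if Corr k B B then 1 else 0) * w A B B (t + k)) * (1 / 2) ^ (n - k)) := by
      intro k hk
      have hk' := (Finset.mem_Icc.1 hk).2
      have h4 : (2 : ℝ) ^ n * (1 / 2) ^ (n - k) = 2 ^ k := by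
        have h5 : (2 : ℝ) ^ n = 2 ^ k * 2 ^ (n - k) := by
          rw [← pow_add]; congr 1; omega
        rw [h5, mul_assoc, ← mul_pow]
        norm_num
      rw [← h4]
      ring
    rw [Finset.sum_congr rfl h3, Finset.sum_sub_distrib, ← Finset.mul_sum, ← Finset.mul_sum, h2,
      sub_self]
  -- sum over `t`
  have hsk1 : ∀ k, Summable (fun t => w A B A (t + k)) := fun k => (summable_nat_add_iff k).2 hs1
  have hsk2 : ∀ k, Summable (fun t => w A B B (t + k)) := fun k => (summable_nat_add_iff k).2 hs2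
  have h5 : ∑' t, ∑ k ∈ Finset.Icc 1 n, (2 : ℝ) ^ k *
      (((if Corr k A A then 1 else 0) - (if Corr k A B then 1 else 0)) * w A B A (t + k) -
       ((if Corr k B B then 1 else 0) - (if Corr k B A then 1 else 0)) * w A B B (t + k)) = 0 := by
    simp_rw [h1]
    exact tsum_zero
  rw [Summable.tsum_finsetSum (fun k _ => (((hsk1 k).mul_left _).sub ((hsk2 k).mul_left _)).mul_left _)]
    at h5
  have h6 : ∀ k ∈ Finset.Icc 1 n, ∑' t, (2 : ℝ) ^ k *
      (((if Corr k A A then 1 else 0) - (if Corr k A B then 1 else 0)) * w A B A (t + k) -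
       ((if Corr k B B then 1 else 0) - (if Corr k B A then 1 else 0)) * w A B B (t + k)) =
       ((if Corr k A A then 2 ^ k else 0) - (if Corr k A B then 2 ^ k else 0)) *
          (∑' j, w A B A j) -
       ((if Corr k B B then 2 ^ k else 0) - (if Corr k B A then 2 ^ k else 0)) *
          (∑' j, w A B B j) := by
    intro k hk
    have hk' := (Finset.mem_Icc.1 hk).2
    rw [tsum_mul_left, Summable.tsum_sub ((hsk1 k).mul_left _) ((hsk2 k).mul_left _),
      tsum_mul_left, tsum_mul_left, tsum_shift A B A hs1 hk', tsum_shift A B B hs2 hk']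
    split_ifs <;> ring
  rw [Finset.sum_congr rfl h6, Finset.sum_sub_distrib, ← Finset.sum_mul, ← Finset.sum_mul,
    Finset.sum_sub_distrib, Finset.sum_sub_distrib] at h5
  unfold cor
  linarith

theorem before_eq (A B : Fin n → Bool) (hAB : A ≠ B) : winProb B A = ∑' j, w A B B j := by
  have h1 : Before B A = ⋃ j, Win A B B j := by
    classical
    ext ω
    simp only [Before, Set.mem_ofPred_eq, Set.mem_iUnion]
    constructor
    · rintro ⟨m, h1, h2⟩
      have h3 : ∃ m, Occurs B ω m := ⟨m, h1⟩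
      set m' := Nat.find h3 with hm'
      have h4 : Occurs B ω m' := Nat.find_spec h3
      have h5 : m' ≤ m := Nat.find_min' h3 h1
      refine ⟨m' + n, ⟨m', rfl, h4⟩, fun i hi => ⟨?_, ?_⟩⟩
      · rintro ⟨l, hl, ho⟩
        exact h2 l (by omega) ho
      · rintro ⟨l, hl, ho⟩
        exact Nat.find_min h3 (show l < m' by omega) ho
    · rintro ⟨j, ⟨m, hm, ho⟩, h2⟩
      refine ⟨m, ho, fun l hl hA => ?_⟩
      rcases hl.lt_or_eq with h | h
      · exact (h2 (l + n) (by omega)).1 ⟨l, rfl, hA⟩
      · subst h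
        exact hAB (endsAt_unique (j := l + n) ⟨l, rfl, hA⟩ ⟨l, rfl, ho⟩)
  unfold winProb
  have h2 : Pairwise (Function.onFun Disjoint fun j => Win A B B j) := by
    intro j j' hjj'
    change Disjoint _ _
    rw [Set.disjoint_left]
    rintro ω ⟨h3, h4⟩ ⟨h5, h6⟩
    rcases lt_trichotomy j j' with h | h | h
    · exact (h6 j h).2 h3
    · exact hjj' h
    · exact (h4 j' h).2 h5
  have h3 := measure_iUnion (μ := coin) h2 (fun j => meas_win A B B j)
  rw [measureReal_def, h1, h3, ENNReal.tsum_toReal_eq (fun j => measure_ne_top _ _)]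
  rfl

/-- Conway's formula -/
theorem conway (A B : Fin n → Bool) (hAB : A ≠ B) :
    winProb B A * ((cor A A - cor A B) + (cor B B - cor B A)) = cor A A - cor A B := by
  have h1 := conway_eq A B hAB
  have h2 := tsum_one A B hAB
  rw [before_eq A B hAB]
  have h3 : ∑' j, w A B A j = 1 - ∑' j, w A B B j := by linarith
  rw [h3] at h1
  linarith

end Q289.PA
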