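import Pool.Agent.Q289.PA.Conway

/-!
# The Penney-Ante game: averages over a random first string
-/

set_option autoImplicit false

open MeasureTheory ProbabilityTheory Filter Topology

namespace Q289.PA

variable {n : ℕ}

/-- the letter `b` followed by the string `A` -/
def ext (b : Bool) (A : Fin n → Bool) : ℕ → Bool
  | 0 => b
  | (j + 1) => str A j

theorem count (b : Bool) (r s k : ℕ) (hrs : r < s) (hsk : s + k ≤ n + 1) :
    (Finset.univ.filter fun A : Fin n → Bool =>
      ∀ i, i < k → ext b A (s + i) = ext b A (r + i)).card ≤ 2 ^ (n - k) := by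
  classical
  set E : Finset (Fin n) := Finset.univ.filter fun j => s ≤ j.val + 1 ∧ j.val + 1 < s + k with hE
  have hEc : k ≤ E.card := by
    have : (Finset.univ : Finset (Fin k)).card ≤ E.card := by
      refine Finset.card_le_card_of_injOn (fun i => (⟨s + i.val - 1, by omega⟩ : Fin n)) ?_ ?_
      · intro i _
        simp only [hE, Finset.coe_filter, Finset.mem_univ, true_and, Set.mem_ofPred_eq]
        omega
      · intro i _ j _ hij
        have := congrArg Fin.val hij
        simp only at this
        exact Fin.ext (by omega)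
    simpa using this
  have hDc : Eᶜ.card ≤ n - k := by
    rw [Finset.card_compl, Fintype.card_fin]
    omega
  have hinj : (Finset.univ.filter fun A : Fin n → Bool =>
      ∀ i, i < k → ext b A (s + i) = ext b A (r + i)).card ≤
      (Finset.univ : Finset ((Eᶜ : Finset (Fin n)) → Bool)).card := by
    refine Finset.card_le_card_of_injOn (fun A j => A j.1) (fun _ _ => Finset.mem_coe.2 (Finset.mem_univ _)) ?_
    intro A hA A' hA' hAA
    have h1 : ∀ i, i < k → ext b A (s + i) = ext b A (r + i) := by simpa using hA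
    have h2 : ∀ i, i < k → ext b A' (s + i) = ext b A' (r + i) := by simpa using hA'
    have h3 : ∀ p, p ≤ n → ext b A p = ext b A' p := by
      intro p
      induction p using Nat.strong_induction_on with
      | _ p ih =>
        intro hp
        rcases lt_or_ge p s with h | h
        · cases p with
          | zero => rfl
          | succ j =>
            have hj : (⟨j, by omega⟩ : Fin n) ∈ Eᶜ := by
              rw [Finset.mem_compl]
              simp only [hE, Finset.mem_filter, Finset.mem_univ, true_and]
              omega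
            have := congrFun hAA ⟨_, hj⟩
            simp only at this
            change str A j = str A' j
            rw [str_of_lt A (by omega), str_of_lt A' (by omega)]
            exact this
        · rcases lt_or_ge p (s + k) with h' | h'
          · obtain ⟨i, rfl⟩ := Nat.exists_eq_add_of_le h
            rw [h1 i (by omega), h2 i (by omega)]
            exact ih (r + i) (by omega) (by omega)
          · cases p with
            | zero => rfl
            | succ j =>
              have hj : (⟨j, by omega⟩ : Fin n) ∈ Eᶜ := by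
                rw [Finset.mem_compl]
                simp only [hE, Finset.mem_filter, Finset.mem_univ, true_and]
                omega
              have := congrFun hAA ⟨_, hj⟩
              simp only at this
              change str A j = str A' j
              rw [str_of_lt A (by omega), str_of_lt A' (by omega)]
              exact this
    funext j
    have := h3 (j.val + 1) (by omega)
    change str A j.val = str A' j.val at this
    rw [str_of_lt A j.2, str_of_lt A' j.2] at this
    exact this
  refine hinj.trans ?_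
  rw [Finset.card_univ, Fintype.card_fun, Fintype.card_bool, Fintype.card_coe]
  exact Nat.pow_le_pow_right (by norm_num) hDc

open Classical in
/-- a sum of weights -/
noncomputable def wsum (P : ℕ → Prop) (m : ℕ) : ℝ := ∑ k ∈ Finset.Ico 1 m, if P k then (2 : ℝ) ^ k else 0

theorem wsum_nonneg (P : ℕ → Prop) (m : ℕ) : 0 ≤ wsum P m :=
  Finset.sum_nonneg fun k _ => by split_ifs <;> positivity

theorem geom (m : ℕ) (hm : 1 ≤ m) : ∑ k ∈ Finset.Ico 1 m, (2 : ℝ) ^ k = 2 ^ m - 2 := by
  induction m with
  | zero => omega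
  | succ m ih =>
    rcases Nat.eq_zero_or_pos m with h | h
    · subst h; norm_num
    · rw [Finset.sum_Ico_succ_top h, ih h]; ring

theorem wsum_le (P : ℕ → Prop) (m : ℕ) (hm : 1 ≤ m) : wsum P m ≤ 2 ^ m - 2 := by
  rw [← geom m hm]
  refine Finset.sum_le_sum fun k _ => ?_
  split_ifs
  · exact le_rfl
  · positivity

theorem sum_wsum (P : (Fin n → Bool) → ℕ → Prop) (m : ℕ) (hm : m ≤ n)
    (h : ∀ k, 1 ≤ k → k < m → ∃ (b : Bool) (r s : ℕ), r < s ∧ s + k ≤ n + 1 ∧
      ∀ A, P A k → ∀ i, i < k → ext b A (s + i) = ext b A (r + i)) :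
    ∑ A : Fin n → Bool, wsum (P A) m ≤ ((n : ℝ) - 1) * 2 ^ n ∨ m = 0 := by
  classical
  rcases Nat.eq_zero_or_pos m with h0 | h0
  · exact Or.inr h0
  left
  unfold wsum
  rw [Finset.sum_comm]
  have h1 : ∀ k ∈ Finset.Ico 1 m, ∑ A : Fin n → Bool, (if P A k then (2 : ℝ) ^ k else 0) ≤
      2 ^ n := by
    intro k hk
    obtain ⟨hk1, hk2⟩ := Finset.mem_Ico.1 hk
    obtain ⟨b, r, s, hrs, hsk, hP⟩ := h k hk1 hk2
    rw [← Finset.sum_filter, Finset.sum_const, nsmul_eq_mul]
    have h2 : (Finset.univ.filter fun A : Fin n → Bool => P A k).card ≤ 2 ^ (n - k) := by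
      refine le_trans (Finset.card_le_card ?_) (count (n := n) b r s k hrs hsk)
      intro A hA
      rw [Finset.mem_filter] at hA ⊢
      exact ⟨hA.1, hP A hA.2⟩
    have h3 : ((Finset.univ.filter fun A : Fin n → Bool => P A k).card : ℝ) ≤ 2 ^ (n - k) := by
      exact_mod_cast h2
    calc ((Finset.univ.filter fun A : Fin n → Bool => P A k).card : ℝ) * 2 ^ k
        ≤ 2 ^ (n - k) * 2 ^ k := mul_le_mul_of_nonneg_right h3 (by positivity)
      _ = 2 ^ n := by rw [← pow_add]; congr 1; omega
  refine (Finset.sum_le_card_nsmul _ _ _ h1).trans ?_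
  rw [Nat.card_Ico, nsmul_eq_mul]
  refine mul_le_mul_of_nonneg_right ?_ (by positivity)
  rw [Nat.cast_sub h0]
  have : (m : ℝ) ≤ n := by exact_mod_cast hm
  push_cast
  linarith

/-- the sum of the correlation without the full overlap -/
noncomputable def S (X Y : Fin n → Bool) : ℝ := wsum (fun k => Corr k X Y) n

theorem cor_self (hn : 1 ≤ n) (A : Fin n → Bool) : cor A A = 2 ^ n + S A A := by
  classical
  unfold cor S wsum
  have h1 : Finset.Icc 1 n = insert n (Finset.Ico 1 n) := by
    ext k; simp only [Finset.mem_Icc, Finset.mem_insert, Finset.mem_Ico]; omega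
  rw [h1, Finset.sum_insert (by simp)]
  have h2 : Corr n A A := by
    intro i _
    rw [Nat.sub_self, zero_add]
  rw [if_pos h2]

theorem cor_ne (hn : 1 ≤ n) {A B : Fin n → Bool} (hAB : A ≠ B) : cor A B = S A B := by
  classical
  unfold cor S wsum
  have h1 : Finset.Icc 1 n = insert n (Finset.Ico 1 n) := by
    ext k; simp only [Finset.mem_Icc, Finset.mem_insert, Finset.mem_Ico]; omega
  rw [h1, Finset.sum_insert (by simp)]
  have h2 : ¬ Corr n A B := by
    intro h
    apply hAB
    funext i
    have := h i.1 i.2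
    rw [Nat.sub_self, zero_add, str_of_lt A i.2, str_of_lt B i.2] at this
    exact this
  rw [if_neg h2, zero_add]

/-- borders of the string without its last letter -/
def Bord (A : Fin n → Bool) (k : ℕ) : Prop := ∀ i, i < k → str A (n - 1 - k + i) = str A i

theorem S_le (hn : 1 ≤ n) (A B : Fin n → Bool) :
    S B A ≤ 2 ^ (n - 1) + wsum (Bord A) (n - 1) := by
  classical
  have hw := wsum_nonneg (Bord A) (n - 1)
  rcases Nat.lt_or_ge 1 n with h1 | h1
  · have h2 : Finset.Ico 1 n = insert (n - 1) (Finset.Ico 1 (n - 1)) := by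
      ext k; simp only [Finset.mem_insert, Finset.mem_Ico]; omega
    unfold S
    by_cases hc : Corr (n - 1) B A
    · unfold wsum
      rw [h2, Finset.sum_insert (by simp), if_pos hc]
      refine add_le_add le_rfl (Finset.sum_le_sum fun k hk => ?_)
      have hk' := Finset.mem_Ico.1 hk
      by_cases h3 : Corr k B A
      · have h4 : Bord A k := by
          intro i hi
          rw [← h3 i hi, ← hc (n - 1 - k + i) (by omega)]
          congr 1
          omega
        rw [if_pos h3, if_pos h4]
      · rw [if_neg h3]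
        split_ifs <;> positivity
    · have h3 : wsum (fun k => Corr k B A) n ≤ 2 ^ (n - 1) - 2 := by
        unfold wsum
        rw [h2, Finset.sum_insert (by simp), if_neg hc, zero_add]
        exact wsum_le (fun k => Corr k B A) (n - 1) (by omega)
      linarith
  · have h2 : n = 1 := by omega
    subst h2
    unfold S wsum
    simp

theorem win_upper (hn : 1 ≤ n) (A B : Fin n → Bool) (hBA : B ≠ A) :
    winProb B A ≤ 2 / 3 + (S A A + 2 * wsum (Bord A) (n - 1)) / (3 * 2 ^ n) := by
  have h1 := conway A B hBA.symm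
  rw [cor_self hn A, cor_self hn B, cor_ne hn hBA, cor_ne hn hBA.symm] at h1
  have hAB := wsum_le (fun k => Corr k A B) n hn
  have hBAs := wsum_le (fun k => Corr k B A) n hn
  have hAB0 := wsum_nonneg (fun k => Corr k A B) n
  have hAA0 := wsum_nonneg (fun k => Corr k A A) n
  have hBB0 := wsum_nonneg (fun k => Corr k B B) n
  have hS := S_le hn A B
  have hd0 := wsum_nonneg (Bord A) (n - 1)
  have hd1 : wsum (Bord A) (n - 1) ≤ 2 ^ (n - 1) := by
    rcases Nat.lt_or_ge 1 n with h | h
    · have := wsum_le (Bord A) (n - 1) (by omega)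
      linarith
    · have : n = 1 := by omega
      subst this
      unfold wsum; simp
  have hpow : (2 : ℝ) ^ n = 2 * 2 ^ (n - 1) := by
    rw [← pow_succ']; congr 1; omega
  have hp0 : (0 : ℝ) < 2 ^ (n - 1) := by positivity
  change wsum (fun k => Corr k B A) n ≤ _ at hS
  unfold S at h1 ⊢
  set p : ℝ := 2 ^ (n - 1)
  set W := winProb B A
  set a := wsum (fun k => Corr k A A) n
  set ab := wsum (fun k => Corr k A B) n
  set ba := wsum (fun k => Corr k B A) n
  set bb := wsum (fun k => Corr k B B) n
  set d := wsum (Bord A) (n - 1)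
  rw [hpow] at h1 hAB hBAs ⊢
  set x : ℝ := 2 * p + a - ab with hx
  set y : ℝ := 2 * p + bb - ba with hy
  have hx0 : 0 < x := by linarith
  have hy0 : 0 < y := by linarith
  have hW : W = x / (x + y) := by
    rw [eq_div_iff (by positivity)]
    linarith
  -- X and Y
  set X : ℝ := 2 * p + a with hX
  set Y : ℝ := p - d with hY
  have hxX : x ≤ X := by linarith
  have hyY : Y ≤ y := by linarith
  have hY0 : 0 ≤ Y := by linarith
  have hX0 : 0 < X := by linarith
  have h2 : x / (x + y) ≤ X / (X + Y) := by
    rw [div_le_div_iff₀ (by positivity) (by positivity)]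
    nlinarith
  have h3 : X / (X + Y) ≤ 2 / 3 + (a + 2 * d) / (3 * (2 * p)) := by
    have h4 : X / (X + Y) = 2 / 3 + (a + 2 * d) / (3 * (X + Y)) := by
      field_simp
      rw [hX, hY]; ring
    rw [h4]
    have h5 : (a + 2 * d) / (3 * (X + Y)) ≤ (a + 2 * d) / (3 * (2 * p)) := by
      apply div_le_div_of_nonneg_left (by linarith) (by linarith)
      nlinarith
    linarith
  rw [hW]
  exact h2.trans h3

/-- the answer of Player II: the letter `b` followed by the first letters of `A` -/
def resp (b : Bool) (A : Fin n → Bool) : Fin n → Bool := fun i => ext b A i.1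

theorem str_resp (b : Bool) (A : Fin n → Bool) {i : ℕ} (hi : i < n) :
    str (resp b A) i = ext b A i := by
  rw [str_of_lt _ hi]; rfl

theorem win_nonneg (A B : Fin n → Bool) : 0 ≤ winProb B A := measureReal_nonneg

theorem win_lower (hn : 2 ≤ n) (A : Fin n → Bool) (hne : resp false A ≠ A) :
    2 / 3 - 4 / 3 * (S A (resp false A) + 2 * S (resp false A) (resp false A)) / 2 ^ n ≤
      winProb (resp false A) A := by
  classical
  set B := resp false A with hB
  have hn1 : 1 ≤ n := by omega
  have h1 := conway A B hne.symm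
  rw [cor_self hn1 A, cor_self hn1 B, cor_ne hn1 hne, cor_ne hn1 hne.symm] at h1
  have hAB := wsum_le (fun k => Corr k A B) n hn1
  have hBAs := wsum_le (fun k => Corr k B A) n hn1
  have hAB0 := wsum_nonneg (fun k => Corr k A B) n
  have hAA0 := wsum_nonneg (fun k => Corr k A A) n
  have hBB0 := wsum_nonneg (fun k => Corr k B B) n
  have hpow : (2 : ℝ) ^ n = 2 * 2 ^ (n - 1) := by
    rw [← pow_succ']; congr 1; omega
  have hp0 : (0 : ℝ) < 2 ^ (n - 1) := by positivity
  have hW0 := win_nonneg A B
  have hBA1 : 2 ^ (n - 1) ≤ wsum (fun k => Corr k B A) n := by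
    have h2 : Finset.Ico 1 n = insert (n - 1) (Finset.Ico 1 (n - 1)) := by
      ext k; simp only [Finset.mem_insert, Finset.mem_Ico]; omega
    have hc : Corr (n - 1) B A := by
      intro i hi
      have h3 : n - (n - 1) + i = i + 1 := by omega
      rw [h3, hB, str_resp false A (by omega)]
      rfl
    unfold wsum
    rw [h2, Finset.sum_insert (by simp), if_pos hc]
    have : 0 ≤ ∑ k ∈ Finset.Ico 1 (n - 1), if Corr k B A then (2 : ℝ) ^ k else 0 :=
      Finset.sum_nonneg fun k _ => by split_ifs <;> positivity
    linarith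
  unfold S at h1 ⊢
  set p : ℝ := 2 ^ (n - 1)
  set W := winProb B A
  set a := wsum (fun k => Corr k A A) n
  set ab := wsum (fun k => Corr k A B) n
  set ba := wsum (fun k => Corr k B A) n
  set bb := wsum (fun k => Corr k B B) n
  rw [hpow] at h1 hAB hBAs ⊢
  set x : ℝ := 2 * p + a - ab with hx
  set y : ℝ := 2 * p + bb - ba with hy
  have hx0 : 0 < x := by linarith
  have hy0 : 0 < y := by linarith
  have hW : W = x / (x + y) := by
    rw [eq_div_iff (by positivity)]
    linarith
  rcases le_total ab p with h | h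
  · have h4 : x / (x + y) = 2 / 3 + (x - 2 * y) / (3 * (x + y)) := by
      field_simp; ring
    have h5 : -(ab + 2 * bb) ≤ x - 2 * y := by linarith
    have h6 : -(ab + 2 * bb) / (3 * p) ≤ (x - 2 * y) / (3 * (x + y)) := by
      rw [div_le_div_iff₀ (by positivity) (by positivity)]
      have h7 : p ≤ x + y := by linarith
      have h8 : 0 ≤ ab + 2 * bb := by linarith
      nlinarith
    rw [hW, h4]
    have h9 : 4 / 3 * (ab + 2 * bb) / (2 * p) = 2 * ((ab + 2 * bb) / (3 * p)) := by
      field_simp; ring
    rw [h9]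
    have h10 : -(ab + 2 * bb) / (3 * p) = -((ab + 2 * bb) / (3 * p)) := by ring
    rw [h10] at h6
    have h11 : 0 ≤ (ab + 2 * bb) / (3 * p) := by positivity
    linarith
  · refine le_trans ?_ hW0
    have h9 : 2 / 3 ≤ 4 / 3 * (ab + 2 * bb) / (2 * p) := by
      rw [le_div_iff₀ (by positivity)]
      linarith
    linarith

theorem const_case (hn : 2 ≤ n) (A : Fin n → Bool) (he : resp false A = A) :
    2 / 3 - 4 / 3 * (S A (resp false A) + 2 * S (resp false A) (resp false A)) / 2 ^ n ≤ 0 := by
  classical
  have hconst : ∀ i, i < n → str A i = false := by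
    intro i
    induction i with
    | zero =>
      intro h
      have := str_resp false A h
      rw [he] at this
      exact this
    | succ i ih =>
      intro h
      have := str_resp false A h
      rw [he] at this
      rw [this]
      exact ih (by omega)
  rw [he]
  have h1 : S A A = 2 ^ n - 2 := by
    unfold S wsum
    rw [← geom n (by omega)]
    refine Finset.sum_congr rfl fun k hk => ?_
    have hk' := Finset.mem_Ico.1 hk
    have h2 : Corr k A A := by
      intro i hi
      rw [hconst _ (by omega), hconst _ (by omega)]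
    rw [if_pos h2]
  rw [h1]
  have h2 : (4 : ℝ) ≤ 2 ^ n := by
    calc (4 : ℝ) = 2 ^ 2 := by norm_num
      _ ≤ 2 ^ n := pow_le_pow_right₀ (by norm_num) hn
  have h3 : 2 / 3 ≤ 4 / 3 * (((2 : ℝ) ^ n - 2) + 2 * (2 ^ n - 2)) / 2 ^ n := by
    rw [le_div_iff₀ (by positivity)]
    linarith
  linarith

theorem bound_AA (hn : 1 ≤ n) : ∑ A : Fin n → Bool, S A A ≤ ((n : ℝ) - 1) * 2 ^ n := by
  have := sum_wsum (n := n) (fun A k => Corr k A A) n le_rfl (fun k hk1 hk2 =>
    ⟨false, 1, n - k + 1, by omega, by omega, fun A hA i hi => by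
      have h1 : n - k + 1 + i = (n - k + i) + 1 := by omega
      have h2 : 1 + i = i + 1 := by omega
      rw [h1, h2]
      exact hA i hi⟩)
  rcases this with h | h
  · exact h
  · omega

theorem bound_bord (hn : 2 ≤ n) :
    ∑ A : Fin n → Bool, wsum (Bord A) (n - 1) ≤ ((n : ℝ) - 1) * 2 ^ n := by
  have := sum_wsum (n := n) (fun A k => Bord A k) (n - 1) (by omega) (fun k hk1 hk2 =>
    ⟨false, 1, n - k, by omega, by omega, fun A hA i hi => by
      have h1 : n - k + i = (n - 1 - k + i) + 1 := by omega
      have h2 : 1 + i = i + 1 := by omega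
      rw [h1, h2]
      exact hA i hi⟩)
  rcases this with h | h
  · exact h
  · omega

theorem bound_AB (hn : 1 ≤ n) :
    ∑ A : Fin n → Bool, S A (resp false A) ≤ ((n : ℝ) - 1) * 2 ^ n := by
  have := sum_wsum (n := n) (fun A k => Corr k A (resp false A)) n le_rfl (fun k hk1 hk2 =>
    ⟨false, 0, n - k + 1, by omega, by omega, fun A hA i hi => by
      have h1 : n - k + 1 + i = (n - k + i) + 1 := by omega
      rw [h1, zero_add, ← str_resp false A (by omega : i < n)]
      exact hA i hi⟩)
  rcases this with h | h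
  · exact h
  · omega

theorem bound_BB (hn : 1 ≤ n) :
    ∑ A : Fin n → Bool, S (resp false A) (resp false A) ≤ ((n : ℝ) - 1) * 2 ^ n := by
  have := sum_wsum (n := n) (fun A k => Corr k (resp false A) (resp false A)) n le_rfl
    (fun k hk1 hk2 =>
    ⟨false, 0, n - k, by omega, by omega, fun A hA i hi => by
      have h1 := hA i hi
      rw [str_resp false A (by omega : i < n), str_resp false A (by omega : n - k + i < n)] at h1
      rw [zero_add]
      exact h1⟩)
  rcases this with h | h
  · exact h
  · omega

theorem nonempty_other (hn : 1 ≤ n) (A : Fin n → Bool) : Nonempty {B : Fin n → Bool // B ≠ A} :=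
  ⟨⟨fun i => !(A i), fun h => by
    have := congrFun h ⟨0, by omega⟩
    simp at this⟩⟩

theorem upper (hn : 2 ≤ n) : pRandOpt n ≤ 2 / 3 + ((n : ℝ) - 1) / 2 ^ n := by
  have h1 : ∀ A : Fin n → Bool, (⨆ B : {B : Fin n → Bool // B ≠ A}, winProb B.1 A) ≤
      2 / 3 + (S A A + 2 * wsum (Bord A) (n - 1)) / (3 * 2 ^ n) := by
    intro A
    have := nonempty_other (by omega : 1 ≤ n) A
    exact ciSup_le fun B => win_upper (by omega) A B.1 B.2
  have h2 := Finset.sum_le_sum fun A (_ : A ∈ (Finset.univ : Finset (Fin n → Bool))) => h1 A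
  have h3 : ∑ A : Fin n → Bool, (2 / 3 + (S A A + 2 * wsum (Bord A) (n - 1)) / (3 * 2 ^ n)) =
      2 ^ n * (2 / 3) + (∑ A : Fin n → Bool, S A A +
        2 * ∑ A : Fin n → Bool, wsum (Bord A) (n - 1)) / (3 * 2 ^ n) := by
    rw [Finset.sum_add_distrib, Finset.sum_const, ← Finset.sum_div, Finset.sum_add_distrib,
      ← Finset.mul_sum, Finset.card_univ, Fintype.card_fun, Fintype.card_bool, Fintype.card_fin,
      nsmul_eq_mul]
    push_cast
    rfl
  have hp : (0 : ℝ) < 2 ^ n := by positivity
  unfold pRandOpt
  have h4 := h2.trans h3.le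
  have h5 : (∑ A : Fin n → Bool, S A A + 2 * ∑ A : Fin n → Bool, wsum (Bord A) (n - 1)) /
      (3 * 2 ^ n) ≤ (n : ℝ) - 1 := by
    rw [div_le_iff₀ (by positivity)]
    have := bound_AA (n := n) (by omega)
    have := bound_bord hn
    linarith
  calc 1 / 2 ^ n * ∑ A : Fin n → Bool, (⨆ B : {B : Fin n → Bool // B ≠ A}, winProb B.1 A)
      ≤ 1 / 2 ^ n * (2 ^ n * (2 / 3) + ((n : ℝ) - 1)) := by
        apply mul_le_mul_of_nonneg_left _ (by positivity)
        linarith
    _ = 2 / 3 + ((n : ℝ) - 1) / 2 ^ n := by field_simp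

theorem lower (hn : 2 ≤ n) : 2 / 3 - 4 * ((n : ℝ) - 1) / 2 ^ n ≤ pRandOpt n := by
  have h1 : ∀ A : Fin n → Bool,
      2 / 3 - 4 / 3 * (S A (resp false A) + 2 * S (resp false A) (resp false A)) / 2 ^ n ≤
      (⨆ B : {B : Fin n → Bool // B ≠ A}, winProb B.1 A) := by
    intro A
    have hbdd : BddAbove (Set.range fun B : {B : Fin n → Bool // B ≠ A} => winProb B.1 A) :=
      (Set.finite_range _).bddAbove
    by_cases hA : resp false A = A
    · refine (const_case hn A hA).trans ?_
      obtain ⟨B⟩ := nonempty_other (by omega : 1 ≤ n) A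
      exact (win_nonneg A B.1).trans (le_ciSup hbdd B)
    · exact (win_lower hn A hA).trans (le_ciSup hbdd ⟨resp false A, hA⟩)
  have h2 := Finset.sum_le_sum fun A (_ : A ∈ (Finset.univ : Finset (Fin n → Bool))) => h1 A
  have h3 : ∑ A : Fin n → Bool,
      (2 / 3 - 4 / 3 * (S A (resp false A) + 2 * S (resp false A) (resp false A)) / 2 ^ n) =
      2 ^ n * (2 / 3) - 4 / 3 * (∑ A : Fin n → Bool, S A (resp false A) +
        2 * ∑ A : Fin n → Bool, S (resp false A) (resp false A)) / 2 ^ n := by
    rw [Finset.sum_sub_distrib, Finset.sum_const, ← Finset.sum_div, ← Finset.mul_sum,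
      Finset.sum_add_distrib, ← Finset.mul_sum, Finset.card_univ, Fintype.card_fun,
      Fintype.card_bool, Fintype.card_fin, nsmul_eq_mul]
    push_cast
    rfl
  have hp : (0 : ℝ) < 2 ^ n := by positivity
  have h5 : 4 / 3 * (∑ A : Fin n → Bool, S A (resp false A) +
        2 * ∑ A : Fin n → Bool, S (resp false A) (resp false A)) / 2 ^ n ≤ 4 * ((n : ℝ) - 1) := by
    rw [div_le_iff₀ (by positivity)]
    have := bound_AB (n := n) (by omega)
    have := bound_BB (n := n) (by omega)
    linarith
  unfold pRandOpt
  have h4 := h3.symm.le.trans h2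
  calc 2 / 3 - 4 * ((n : ℝ) - 1) / 2 ^ n = 1 / 2 ^ n * (2 ^ n * (2 / 3) - 4 * ((n : ℝ) - 1)) := by
        field_simp
    _ ≤ 1 / 2 ^ n * ∑ A : Fin n → Bool, (⨆ B : {B : Fin n → Bool // B ≠ A}, winProb B.1 A) := by
        apply mul_le_mul_of_nonneg_left _ (by positivity)
        linarith

end Q289.PA
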