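import Mathlib

/-!
# The Penney-Ante game: definitions
-/

set_option autoImplicit false

open MeasureTheory

namespace Q289.PA

/-- infinitely many independent tosses of a fair coin -/
noncomputable def coin : Measure (ℕ → Bool) :=
  Measure.infinitePi fun _ => (PMF.uniformOfFintype Bool).toMeasure

/-- the string `A` occurs as the block of consecutive outcomes starting at time `m` -/
def Occurs {n : ℕ} (A : Fin n → Bool) (ω : ℕ → Bool) (m : ℕ) : Prop :=
  ∀ i : Fin n, ω (m + i) = A i

/-- the event that the string `B` appears before the string `A` (of the same length) -/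
def Before {n : ℕ} (B A : Fin n → Bool) : Set (ℕ → Bool) :=
  {ω | ∃ m, Occurs B ω m ∧ ∀ j, j ≤ m → ¬ Occurs A ω j}

/-- `P(B ≺ A)` -/
noncomputable def winProb {n : ℕ} (B A : Fin n → Bool) : ℝ := coin.real (Before B A)

/-- `p_n^{rand,opt}` -/
noncomputable def pRandOpt (n : ℕ) : ℝ :=
  1 / 2 ^ n * ∑ A : Fin n → Bool, ⨆ B : {B : Fin n → Bool // B ≠ A}, winProb B.1 A

end Q289.PA
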