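import Pool.Agent.Q289.PA.Defs

/-!
# The Penney-Ante game: independence
-/

set_option autoImplicit false

open MeasureTheory ProbabilityTheory

namespace Q289.PA

instance : IsProbabilityMeasure coin := by unfold coin; infer_instance

theorem meas_prefix (m : ℕ) (F : Set (ℕ → Bool))
    (hF : ∀ ω ω' : ℕ → Bool, (∀ i, i < m → ω i = ω' i) → ω ∈ F → ω' ∈ F) : MeasurableSet F := by
  have h1 : F = (fun ω (i : Finset.range m) => ω i.1) ⁻¹'
      {r | ∃ ω ∈ F, (fun i : Finset.range m => ω i.1) = r} := by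
    ext ω
    constructor
    · intro h
      exact ⟨ω, h, rfl⟩
    · rintro ⟨ω', h, h2⟩
      refine hF ω' ω (fun i hi => ?_) h
      exact congrFun h2 ⟨i, Finset.mem_range.2 hi⟩
  rw [h1]
  exact (Set.toFinite _).measurableSet.preimage (by fun_prop)

theorem prefix_indep (m : ℕ) (F : Set (ℕ → Bool))
    (hF : ∀ ω ω' : ℕ → Bool, (∀ i, i < m → ω i = ω' i) → ω ∈ F → ω' ∈ F) (b : Bool) :
    coin.real (F ∩ {ω | ω m = b}) = coin.real F * (1 / 2) := by
  have h1 : F = (fun ω (i : Finset.range m) => ω i.1) ⁻¹'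
      {r | ∃ ω ∈ F, (fun i : Finset.range m => ω i.1) = r} := by
    ext ω
    constructor
    · intro h
      exact ⟨ω, h, rfl⟩
    · rintro ⟨ω', h, h2⟩
      refine hF ω' ω (fun i hi => ?_) h
      exact congrFun h2 ⟨i, Finset.mem_range.2 hi⟩
  have h2 : iIndepFun (fun (i : ℕ) (ω : ℕ → Bool) => ω i) coin := by
    unfold coin
    exact iIndepFun_infinitePi (P := fun _ : ℕ => (PMF.uniformOfFintype Bool).toMeasure)
      (X := fun _ x => x) (fun _ => measurable_id)
  have h3 := h2.indepFun_finset (Finset.range m) {m} (by simp) (fun i => measurable_pi_apply i)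
  have h4 : {ω : ℕ → Bool | ω m = b} = (fun ω (i : ({m} : Finset ℕ)) => ω i.1) ⁻¹'
      {r | r ⟨m, Finset.mem_singleton_self m⟩ = b} := by
    ext ω; rfl
  have h5 := h3.measure_inter_preimage_eq_mul
    {r | ∃ ω ∈ F, (fun i : Finset.range m => ω i.1) = r}
    {r | r ⟨m, Finset.mem_singleton_self m⟩ = b} (Set.toFinite _).measurableSet
    (Set.toFinite _).measurableSet
  rw [← h1, ← h4] at h5
  have h6 : coin {ω : ℕ → Bool | ω m = b} = 2⁻¹ := by
    have h7 : {ω : ℕ → Bool | ω m = b} = Set.pi ({m} : Finset ℕ) (fun _ => {b}) := by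
      ext ω; simp
    unfold coin
    rw [h7, Measure.infinitePi_pi _ (fun _ _ => measurableSet_singleton b)]
    simp
  rw [measureReal_def, h5, h6, ENNReal.toReal_mul, measureReal_def]
  norm_num

theorem prefix_indep_many (u : ℕ → Bool) (r : ℕ) : ∀ (m : ℕ) (F : Set (ℕ → Bool)),
    (∀ ω ω' : ℕ → Bool, (∀ i, i < m → ω i = ω' i) → ω ∈ F → ω' ∈ F) →
    coin.real (F ∩ {ω | ∀ i, i < r → ω (m + i) = u (m + i)}) = coin.real F * (1 / 2) ^ r := by
  induction r with
  | zero => intro m F _; simp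
  | succ r ih =>
    intro m F hF
    have h1 : F ∩ {ω | ∀ i, i < r + 1 → ω (m + i) = u (m + i)} =
        (F ∩ {ω | ∀ i, i < r → ω (m + i) = u (m + i)}) ∩ {ω | ω (m + r) = u (m + r)} := by
      ext ω
      simp only [Set.mem_inter_iff, Set.mem_ofPred_eq]
      constructor
      · rintro ⟨h2, h3⟩
        exact ⟨⟨h2, fun i hi => h3 i (by omega)⟩, h3 r (by omega)⟩
      · rintro ⟨⟨h2, h3⟩, h4⟩
        refine ⟨h2, fun i hi => ?_⟩
        rcases Nat.lt_succ_iff_lt_or_eq.1 hi with h | h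
        · exact h3 i h
        · rw [h]; exact h4
    rw [h1, prefix_indep (m + r), ih m F hF]
    · ring
    · rintro ω ω' h ⟨h2, h3⟩
      refine ⟨hF ω ω' (fun i hi => h i (by omega)) h2, fun i hi => ?_⟩
      rw [← h (m + i) (by omega)]
      exact h3 i hi

end Q289.PA
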